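import Mathlib
import Pool.Agent.Y826.Z.Defs4
import Pool.Agent.K9h6.N.D4

/-! helper6: the good cells. -/

set_option autoImplicit false

open Finset Filter

namespace Pool.Agent.K9h6.C

open Pool.Agent.H95R2.BG Pool.Agent.Y826.Z

/-- good cells: no large coordinate, and enough small coordinates on all scales -/
structure Gd3 {K0 : ℕ} (N1 : ℕ) (c : Fin K0 → ℕ) : Prop where
  cap : ∀ j, ((c j : ℝ) + 1) / N1 ≤ 0.72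
  rd : (rad c : ℝ) / N1 ≤ 1.0965
  s0 : 0.0067 ≤ Sm N1 0.0044 c
  s1 : 0.0216 ≤ Sm N1 0.0088 c
  s2 : 0.0566 ≤ Sm N1 0.022 c
  s3 : 0.1064 ≤ Sm N1 0.05 c
  s4 : 0.144 ≤ Sm N1 0.1 c
  s5 : 0.1695 ≤ Sm N1 0.15 c
  s6 : 0.1852 ≤ Sm N1 0.22 c
  s7 : 0.2152 ≤ Sm N1 0.3 c
  s8 : 0.2502 ≤ Sm N1 0.36 c

/-- two good cells can be evaluated up to the total radius `2.06806` -/
def S_COMB3 : Prop := ∀ (K0 N1 : ℕ), 0 < N1 → ∀ c c' : Fin K0 → ℕ, Gd3 N1 c → Gd3 N1 c' →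
  ((rad c + rad c' : ℕ) : ℝ) / N1 ≤ 2.06806 → N.Ev N1 c c'

end Pool.Agent.K9h6.C
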