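import Pool.Agent.Y823.Z.Comb
import Pool.Agent.K9h6.N.CombC
import Pool.Agent.K9h6.N.CombD
import Pool.Agent.K9h6.C.Gd

/-!
# The grouping lemma for the good cells (helper6)
-/

set_option autoImplicit false

namespace Pool.Agent.K9h6.C

open Finset Pool.Agent.Y823.Z Pool.Agent.Y826.Z Pool.Agent.H95R2.BG Pool.Agent.K9h6.N

section

variable {K0 : ℕ} {N1 : ℕ} {c c' : Fin K0 → ℕ}

theorem tt_nonneg (z : Fin (K0 + K0)) : 0 ≤ tt N1 c c' z := by
  refine Fin.addCases (fun j => ?_) (fun j => ?_) z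
  · simp only [tt, Fin.append_left]
    positivity
  · simp only [tt, Fin.append_right]
    positivity

/-- lower bound for the small items from a threshold -/
theorem Po_ge {x f : ℝ} (h : f ≤ Sm N1 x c) (h' : f ≤ Sm N1 x c') (y : ℝ) (hxy : x < y) :
    2 * f ≤ Po (tt N1 c c') y := by
  have h1 := tt_small N1 c c' x
  have h2 : ∑ z ∈ univ.filter (fun z => tt N1 c c' z ≤ x), tt N1 c c' z ≤ Po (tt N1 c c') y := by
    refine sum_le_sum_of_subset_of_nonneg ?_ fun z _ _ => tt_nonneg z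
    intro z hz
    rw [mem_filter] at hz ⊢
    exact ⟨hz.1, hz.2.trans_lt hxy⟩
  linarith

theorem Pc_ge {x f : ℝ} (h : f ≤ Sm N1 x c) (h' : f ≤ Sm N1 x c') :
    2 * f ≤ Pc (tt N1 c c') x := by
  have h1 := tt_small N1 c c' x
  unfold Pc
  linarith

theorem Po_nonneg (y : ℝ) : 0 ≤ Po (tt N1 c c') y := sum_nonneg fun z _ => tt_nonneg z

/-- two items above `x` in one cell -/
theorem pair_le {x f rd : ℝ} (hx : f ≤ Sm N1 x c) (hr : (rad c : ℝ) / N1 ≤ rd) (i j : Fin K0)
    (hij : i ≠ j) (hi : x < ((c i : ℝ) + 1) / N1) (hj : x < ((c j : ℝ) + 1) / N1) :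
    ((c i : ℝ) + 1) / N1 + ((c j : ℝ) + 1) / N1 ≤ rd - f := by
  have h1 : ∑ j, (if x < ((c j : ℝ) + 1) / N1 then ((c j : ℝ) + 1) / N1 else 0) +
      Sm N1 x c = (rad c : ℝ) / N1 := by
    unfold Sm rad
    push_cast
    rw [← sum_add_distrib, Finset.sum_div]
    refine sum_congr rfl fun j _ => ?_
    by_cases h2 : ((c j : ℝ) + 1) / N1 ≤ x
    · rw [if_neg (not_lt.2 h2), if_pos h2, zero_add]
    · rw [if_pos (not_le.1 h2), if_neg h2, add_zero]
  have h2 : ∑ z ∈ ({i, j} : Finset (Fin K0)), (if x < ((c z : ℝ) + 1) / N1 then ((c z : ℝ) + 1) / N1 else 0) ≤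
      ∑ j, (if x < ((c j : ℝ) + 1) / N1 then ((c j : ℝ) + 1) / N1 else 0) := by
    refine sum_le_sum_of_subset_of_nonneg (subset_univ _) fun z _ _ => ?_
    split_ifs
    · positivity
    · exact le_rfl
  rw [sum_pair hij, if_pos hi, if_pos hj] at h2
  linarith

/-- two items above `x` in the same cell of a pair -/
theorem tt_pair {x f rd : ℝ} (hx : f ≤ Sm N1 x c) (hx' : f ≤ Sm N1 x c') (hr : (rad c : ℝ) / N1 ≤ rd)
    (hr' : (rad c' : ℝ) / N1 ≤ rd) (z w : Fin (K0 + K0)) (hzw : z ≠ w)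
    (hcl : (cc z : Bool) = cc w) (hz : x < tt N1 c c' z) (hw : x < tt N1 c c' w) :
    tt N1 c c' z + tt N1 c c' w ≤ rd - f := by
  revert hzw hcl hz hw
  refine Fin.addCases (fun i => ?_) (fun i => ?_) z <;> refine Fin.addCases (fun j => ?_) (fun j => ?_) w
  · intro hzw _ hz hw
    simp only [tt, Fin.append_left] at hz hw ⊢
    exact pair_le hx hr i j (fun h => hzw (h ▸ rfl)) hz hw
  · intro _ hcl _ _
    simp only [cc, Fin.append_left, Fin.append_right] at hcl
    exact absurd hcl (by decide)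
  · intro _ hcl _ _
    simp only [cc, Fin.append_left, Fin.append_right] at hcl
    exact absurd hcl (by decide)
  · intro hzw _ hz hw
    simp only [tt, Fin.append_right] at hz hw ⊢
    exact pair_le hx' hr' i j (fun h => hzw (h ▸ rfl)) hz hw

end

theorem comb3 : S_COMB3 := by
  intro K0 N1 hN1 c c' h h' hrad
  have hN1' : (0 : ℝ) < N1 := by exact_mod_cast hN1
  right
  refine ⟨?_, 0.00000001 / ((K0 : ℝ) + 1), by positivity, ?_⟩
  · rw [div_le_iff₀ hN1'] at hrad
    have h1 : (25 * (rad c + rad c') : ℝ) ≤ 54 * N1 := by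
      push_cast at hrad
      linarith
    exact_mod_cast h1
  set δ : ℝ := 0.00000001 / ((K0 : ℝ) + 1) with hδ
  have hK : (0 : ℝ) ≤ K0 := Nat.cast_nonneg _
  have hδ0 : 0 < δ := by positivity
  have hδK : δ * ((K0 : ℝ) + 1) = 0.00000001 := by
    rw [hδ]
    field_simp
  have hδ1 : δ ≤ 0.00000001 := by nlinarith
  intro x hx hsum
  have htp : ∀ z, 4 * tp (fun j => ((c j : ℝ) + 1) / N1) (fun j => ((c' j : ℝ) + 1) / N1) z =
      tt N1 c c' z := by
    intro z
    refine Fin.addCases (fun j => ?_) (fun j => ?_) z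
    · simp only [tp, tt, Fin.append_left]
      ring
    · simp only [tp, tt, Fin.append_right]
      ring
  have htt2 : ∀ z, tt N1 c c' z ≤ 0.72 := by
    intro z
    refine Fin.addCases (fun j => ?_) (fun j => ?_) z
    · simp only [tt, Fin.append_left]
      exact h.cap j
    · simp only [tt, Fin.append_right]
      exact h'.cap j
  set X : Fin (K0 + K0) → ℝ := fun z => max (4 * x z) 0 with hXd
  have hX1 : ∀ z, 4 * x z ≤ X z := fun z => le_max_left _ _
  have hX2 : ∀ z, X z ≤ 4 * x z + 4 * δ := by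
    intro z
    have := (hx z).1
    exact max_le (by linarith) (by linarith)
  have p0 : ∀ y, (0.0044 : ℝ) < y → 0.0134 ≤ Po (tt N1 c c') y := fun y hy => by
    have := Po_ge h.s0 h'.s0 y hy
    linarith
  have p1 : ∀ y, (0.0088 : ℝ) < y → 0.0432 ≤ Po (tt N1 c c') y := fun y hy => by
    have := Po_ge h.s1 h'.s1 y hy
    linarith
  have p2 : ∀ y, (0.022 : ℝ) < y → 0.1132 ≤ Po (tt N1 c c') y := fun y hy => by
    have := Po_ge h.s2 h'.s2 y hy
    linarith
  have p3 : ∀ y, (0.05 : ℝ) < y → 0.2128 ≤ Po (tt N1 c c') y := fun y hy => by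
    have := Po_ge h.s3 h'.s3 y hy
    linarith
  have p4 : ∀ y, (0.1 : ℝ) < y → 0.288 ≤ Po (tt N1 c c') y := fun y hy => by
    have := Po_ge h.s4 h'.s4 y hy
    linarith
  have p5 : ∀ y, (0.15 : ℝ) < y → 0.339 ≤ Po (tt N1 c c') y := fun y hy => by
    have := Po_ge h.s5 h'.s5 y hy
    linarith
  have p6 : ∀ y, (0.22 : ℝ) < y → 0.3704 ≤ Po (tt N1 c c') y := fun y hy => by
    have := Po_ge h.s6 h'.s6 y hy
    linarith
  have p7 : ∀ y, (0.3 : ℝ) < y → 0.4304 ≤ Po (tt N1 c c') y := fun y hy => by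
    have := Po_ge h.s7 h'.s7 y hy
    linarith
  have p8 : ∀ y, (0.36 : ℝ) < y → 0.5004 ≤ Po (tt N1 c c') y := fun y hy => by
    have := Po_ge h.s8 h'.s8 y hy
    linarith
  have P0 : ∀ y, 0 ≤ Po (tt N1 c c') y := Po_nonneg
  have D : ∀ n : ℝ, Dat3 (tt N1 c c') X cc n 0.06806 0.0044 0.05 0.184 0.22 0.43 0.72 := by
    intro n
    refine ⟨fun z => le_max_right _ _, fun z => max_le ?_ (tt_nonneg z), htt2, ?_, ?_, ?_, ?_,
      by norm_num, by norm_num, by norm_num, by norm_num, by norm_num, by norm_num, by norm_num,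
      by norm_num, by norm_num, by norm_num, by norm_num, by norm_num, by norm_num, by norm_num,
      ?_, ?_, ?_, ?_, ?_, ?_, ?_, ?_, ?_⟩
    · rw [← htp z]
      have := (hx z).2
      linarith
    · rw [tt_sum]
      push_cast at hrad
      rw [add_div] at hrad
      linarith
    · have h1 : ∑ z, 4 * x z ≤ ∑ z, X z := sum_le_sum fun z _ => hX1 z
      rw [← mul_sum] at h1
      linarith
    · intro z w hzw hcl hz hw
      have h1 := tt_pair h.s8 h'.s8 h.rd h'.rd z w hzw hcl (by linarith) (by linarith)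
      linarith
    · intro z w hzw hcl hz hw
      have h1 := tt_pair h.s7 h'.s7 h.rd h'.rd z w hzw hcl (by linarith) (by linarith)
      linarith
    · have h1 := Pc_ge h.s3 h'.s3
      linarith
    · intro y h1 h2
      rcases le_or_gt y 0.0088 with k1 | k1
      · linarith [p0 y (by linarith)]
      rcases le_or_gt y 0.022 with k2 | k2
      · linarith [p1 y k1]
      linarith [p2 y k2]
    · intro y h1 h2
      rcases le_or_gt y 0.1 with k4 | k4
      · linarith [p3 y (by linarith)]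
      rcases le_or_gt y 0.15 with k5 | k5
      · linarith [p4 y k4]
      rcases le_or_gt y 0.22 with k6 | k6
      · linarith [p5 y k5]
      rcases le_or_gt y 0.3 with k7 | k7
      · linarith [p6 y k6]
      rcases le_or_gt y 0.36 with k8 | k8
      · linarith [p7 y k7]
      linarith [p8 y k8]
    · intro y h2
      rcases le_or_gt y 0.0044 with k0 | k0
      · linarith [P0 y]
      rcases le_or_gt y 0.0088 with k1 | k1
      · linarith [p0 y k0]
      rcases le_or_gt y 0.022 with k2 | k2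
      · linarith [p1 y k1]
      linarith [p2 y k2]
    · intro y h1 h2
      rcases le_or_gt y 0.1 with k4 | k4
      · linarith [p3 y (by linarith)]
      rcases le_or_gt y 0.15 with k5 | k5
      · linarith [p4 y k4]
      linarith [p5 y k5]
    · have := p5 0.184 (by norm_num)
      linarith
    · intro y h2
      rcases le_or_gt y 0.0044 with k0 | k0
      · linarith [P0 y]
      rcases le_or_gt y 0.0088 with k1 | k1
      · linarith [p0 y k0]
      rcases le_or_gt y 0.022 with k2 | k2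
      · linarith [p1 y k1]
      rcases le_or_gt y 0.05 with k3 | k3
      · linarith [p2 y k2]
      rcases le_or_gt y 0.1 with k4 | k4
      · linarith [p3 y k3]
      rcases le_or_gt y 0.15 with k5 | k5
      · linarith [p4 y k4]
      linarith [p5 y k5]
    · have := p5 0.22 (by norm_num)
      linarith
    · have := p5 0.22 (by norm_num)
      linarith
  -- comparison of the sums
  have cmp : ∀ (g : Fin (K0 + K0) → Fin 5) (y : Fin 5 → ℝ),
      (∀ i, y i = ∑ j ∈ univ.filter (fun j => g j = i), x j) → ∀ i,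
      4 * y i ≤ ∑ z ∈ univ.filter (fun z => g z = i), X z ∧
      ∑ z ∈ univ.filter (fun z => g z = i), X z ≤ 4 * y i + 0.00000008 := by
    intro g y hy i
    constructor
    · rw [hy i, mul_sum]
      exact sum_le_sum fun z _ => hX1 z
    · have h1 : ∑ z ∈ univ.filter (fun z => g z = i), X z ≤
          ∑ z ∈ univ.filter (fun z => g z = i), (4 * x z + 4 * δ) := sum_le_sum fun z _ => hX2 z
      rw [sum_add_distrib, ← mul_sum, ← hy i, sum_const, nsmul_eq_mul] at h1
      have h2 : ((univ.filter (fun z => g z = i)).card : ℝ) ≤ K0 + K0 := by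
        have h3 : (univ.filter (fun z => g z = i)).card ≤ K0 + K0 := by
          refine (card_filter_le _ _).trans ?_
          simp
        exact_mod_cast h3
      have h4 : ((univ.filter (fun z => g z = i)).card : ℝ) * (4 * δ) ≤ 0.00000008 := by
        nlinarith
      linarith
  constructor
  · intro ν hν1 hν2
    obtain ⟨g, hg⟩ := (D (4 * ν)).mainA (by linarith) (by linarith)
    refine ⟨g, ?_⟩
    intro y hy η hη
    obtain ⟨hY, H, hH0, hH, c1, c2, c3, c4, c5⟩ :=
      hg (fun i => ∑ z ∈ univ.filter (fun z => g z = i), X z) (fun i => rfl)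
    have hcmp := cmp g y hy
    set Y : Fin 5 → ℝ := fun i => ∑ z ∈ univ.filter (fun z => g z = i), X z with hYd
    obtain ⟨l0, g0⟩ := hcmp 0
    obtain ⟨l1, g1⟩ := hcmp 1
    obtain ⟨l2, g2⟩ := hcmp 2
    obtain ⟨l3, g3⟩ := hcmp 3
    obtain ⟨l4, g4⟩ := hcmp 4
    change 4 * y 0 ≤ Y 0 at l0
    change 4 * y 1 ≤ Y 1 at l1
    change 4 * y 2 ≤ Y 2 at l2
    change 4 * y 3 ≤ Y 3 at l3
    change 4 * y 4 ≤ Y 4 at l4
    change Y 0 ≤ _ at g0
    change Y 1 ≤ _ at g1
    change Y 2 ≤ _ at g2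
    change Y 3 ≤ _ at g3
    change Y 4 ≤ _ at g4
    change Y 0 + Y 1 + Y 2 + Y 3 + Y 4 = _ at hY
    have hη4 : 4 * η ≤ H := by
      rw [hη]
      rcases le_total 0 (y 0 + y 1 + 2 * y 2 + 2 * y 3 + 2 * y 4 - (1 - ν)) with h1 | h1
      · rw [max_eq_right h1]
        rw [hH]
        linarith
      · rw [max_eq_left h1]
        linarith
    have hη0 : 0 ≤ η := by
      rw [hη]
      exact le_max_left _ _
    refine ⟨?_, ?_, ?_, ?_, ?_⟩ <;> linarith
  · intro ν hν1 hν2
    obtain ⟨g, hg2, hg⟩ := (D (4 * ν)).mainS (by linarith) (by linarith)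
    refine ⟨g, hg2, ?_⟩
    intro y hy η hη
    obtain ⟨hY, hY2, H, hH0, hH, c1, c3, c4, c5⟩ :=
      hg (fun i => ∑ z ∈ univ.filter (fun z => g z = i), X z) (fun i => rfl)
    have hcmp := cmp g y hy
    set Y : Fin 5 → ℝ := fun i => ∑ z ∈ univ.filter (fun z => g z = i), X z with hYd
    obtain ⟨l0, g0⟩ := hcmp 0
    obtain ⟨l1, g1⟩ := hcmp 1
    obtain ⟨l3, g3⟩ := hcmp 3
    obtain ⟨l4, g4⟩ := hcmp 4
    change 4 * y 0 ≤ Y 0 at l0
    change 4 * y 1 ≤ Y 1 at l1
    change 4 * y 3 ≤ Y 3 at l3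
    change 4 * y 4 ≤ Y 4 at l4
    change Y 0 ≤ _ at g0
    change Y 1 ≤ _ at g1
    change Y 3 ≤ _ at g3
    change Y 4 ≤ _ at g4
    change Y 2 = 0 at hY2
    change Y 0 + Y 1 + Y 2 + Y 3 + Y 4 = _ at hY
    have hη4 : 4 * η ≤ H := by
      rw [hη]
      rcases le_total 0 (y 0 + y 1 + 2 * y 3 + 2 * y 4 - (1 - ν)) with h1 | h1
      · rw [max_eq_right h1]
        rw [hH]
        linarith
      · rw [max_eq_left h1]
        linarith
    have hη0 : 0 ≤ η := by
      rw [hη]
      exact le_max_left _ _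
    refine ⟨?_, ?_, ?_, ?_⟩ <;> linarith

end Pool.Agent.K9h6.C
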