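import Pool.Agent.H95R2.BG.Defs
import Pool.Agent.H95R2.BG.Defs2

/-! helper6: `DHL[k,2]` with a count and a residue class, for a general `k`. -/

set_option autoImplicit false

open Finset Filter

namespace Pool.Agent.K9h6.C

open Pool.Agent.H95R2.BG

/-- `DHL[k,2]` with a count and a residue class -/
def DhlCount (k : ℕ) : Prop := ∀ (h : Fin k → ℕ), Admissible h → ∀ (Q b : ℕ), Squarefree Q →
  (∀ i, (b + h i).Coprime Q) → ∀ ε : ℝ, 0 < ε → ∀ᶠ X : ℝ in Filter.atTop, X ^ (1 - ε) ≤ ((goodN h Q b X).card : ℝ)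

end Pool.Agent.K9h6.C
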