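import Mathlib
import Pool.Agent.H95R2.BG.CertMath
import Pool.Agent.H95R2.BG.K1
import Pool.Agent.H95R2.BG.K2
import Pool.Agent.K9h6.C.CM
import Pool.Agent.K9h6.C.CKs

/-! helper6, task KA (adapted from Pool.Agent.Y141.ZC): meaning of the packed computations. -/

set_option autoImplicit false

open Finset

namespace Pool.Agent.K9h6.C.Ka

open Pool.Agent.H95R2.BG.Cert (pk cf pkS nrm G1 G2 look dc dc_spec pk_zero_fun pk_base_zero
  pkS_mul pkS_add pkS_natCast_mul nrm_mul nrm_add nrm_natCast_mul nrm_pow coeff_le_nrm corr_spec)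

/-- generated arrays -/
theorem KA_gen (Bo : ℕ) (f : ℕ → ℕ) : gen Bo f = pk Bo 16384 f := by
  have h := dc_spec Bo 1 1 (fun lo _ _ _ _ _ _ => f lo) 14 0 (fun _ => 0) (fun _ => 0)
    (fun _ => 0) (fun _ => 0) (fun _ => 0) (fun _ => 0) (fun _ _ => by norm_num)
    (fun _ _ => by norm_num) (fun _ _ => by norm_num) (fun _ _ => by norm_num)
    (fun _ _ => by norm_num) (fun _ _ => by norm_num)
  rw [pk_zero_fun] at h
  have h2 : (2 : ℕ) ^ 14 = 16384 := by norm_num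
  rw [h2] at h
  unfold gen
  rw [h]
  unfold pk
  refine Finset.sum_congr rfl fun i _ => ?_
  show f (0 + i) * _ = f i * _
  rw [Nat.zero_add]

theorem KA_cf (q : ℕ → ℕ) : cf (Ps q) = q := by
  funext i
  unfold cf Ps
  rw [PowerSeries.coeff_mk]

theorem KA_cf1 (q : ℕ → ℕ) : cf (Ps1 q) = fun i => q i * ph i := by
  funext i
  unfold cf Ps1
  rw [PowerSeries.coeff_mk]

theorem KA_cf2 (q : ℕ → ℕ) : cf (Ps2 q) = fun i => q i * (ph i * ph i) := by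
  funext i
  unfold cf Ps2
  rw [PowerSeries.coeff_mk]

/-- the weights considered here -/
def Wq (q : ℕ → ℕ) : Prop := ∀ i, i < 16384 → q i ≤ g i * g i + 1

theorem KA_nrm (q : ℕ → ℕ) (hq : Wq q) : nrm 16384 (Ps q) ≤ 1080000000 := by
  have h := Nat.le_of_ble_eq_true chk0
  rw [KA_gen, pk_base_zero] at h
  refine le_trans ?_ h
  unfold nrm
  rw [KA_cf]
  exact Finset.sum_le_sum fun i hi => hq i (mem_range.1 hi)

theorem KA_nrm1 (q : ℕ → ℕ) (hq : Wq q) : nrm 16384 (Ps1 q) ≤ 2 ^ 37 := by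
  have h := Nat.le_of_ble_eq_true chk1
  rw [KA_gen, pk_base_zero] at h
  refine le_trans ?_ h
  unfold nrm
  rw [KA_cf1]
  exact Finset.sum_le_sum fun i hi => Nat.mul_le_mul_right _ (hq i (mem_range.1 hi))

theorem KA_nrm2 (q : ℕ → ℕ) (hq : Wq q) : nrm 16384 (Ps2 q) ≤ 2 ^ 46 := by
  have h := Nat.le_of_ble_eq_true chk2
  rw [KA_gen, pk_base_zero] at h
  refine le_trans ?_ h
  unfold nrm
  rw [KA_cf2]
  exact Finset.sum_le_sum fun i hi => Nat.mul_le_mul_right _ (hq i (mem_range.1 hi))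

theorem P1_eq (q : ℕ → ℕ) : P1 q = pkS 1344 16384 (Ps q) := by
  unfold P1 pkS
  rw [KA_gen, KA_cf]

theorem Q1_eq (q : ℕ → ℕ) : Q1 q = pkS 1344 16384 (Ps1 q) := by
  unfold Q1 pkS
  rw [KA_gen, KA_cf1]
  rfl

theorem Q2_eq (q : ℕ → ℕ) : Q2 q = pkS 1344 16384 (Ps2 q) := by
  unfold Q2 pkS
  rw [KA_gen, KA_cf2]
  rfl

/-- masses of powers -/
theorem KA_nrm_pow (q : ℕ → ℕ) (hq : Wq q) (a : ℕ) :
    nrm 16384 (Ps q ^ a) ≤ 1080000000 ^ a :=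
  (nrm_pow 16384 a (by norm_num) (Ps q)).trans (Nat.pow_le_pow_left (KA_nrm q hq) a)

/-- product step, with the factors and the mask length as variables -/
theorem KA_mul0 (B n s X Y : ℕ) (f h : PowerSeries ℕ) (hs : s = B * n) (hX : X = pkS B n f)
    (hY : Y = pkS B n h) (hb : nrm n f * nrm n h < 2 ^ B) :
    Nat.land (Nat.mul X Y) (Nat.sub (Nat.shiftLeft 1 s) 1) = pkS B n (f * h) := by
  subst hs hX hY
  exact pkS_mul B n f h hb

set_option exponentiation.threshold 4000 in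
theorem KA_num : 1806 * (2 ^ 74 * 1080000000 ^ 41) + 43 * (2 ^ 46 * 1080000000 ^ 42) +
    1080000000 ^ 43 < 2 ^ 1344 := by
  norm_num

theorem KA_num0 (k : ℕ) (hk : k ≤ 43) : 1080000000 ^ k < 2 ^ 1344 := by
  have h1 : 1080000000 ^ k ≤ 1080000000 ^ 43 := Nat.pow_le_pow_right (by norm_num) hk
  have h2 := KA_num
  generalize (2 : ℕ) ^ 1344 = a at *
  generalize (1080000000 : ℕ) ^ 43 = b at *
  generalize (1806 * (2 ^ 74 * 1080000000 ^ 41) : ℕ) = c at *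
  generalize (43 * (2 ^ 46 * 1080000000 ^ 42) : ℕ) = d at *
  omega

theorem KA_num1 (k m c : ℕ) (hk : k ≤ 42) (hm : m ≤ 43) (hc : c ≤ 46) :
    m * (2 ^ c * 1080000000 ^ k) ≤ 43 * (2 ^ 46 * 1080000000 ^ 42) :=
  Nat.mul_le_mul hm (Nat.mul_le_mul (Nat.pow_le_pow_right (by norm_num) hc)
    (Nat.pow_le_pow_right (by norm_num) hk))

theorem KA_num2 (k m : ℕ) (hk : k ≤ 41) (hm : m ≤ 1806) :
    m * (2 ^ 74 * 1080000000 ^ k) ≤ 1806 * (2 ^ 74 * 1080000000 ^ 41) :=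
  Nat.mul_le_mul hm (Nat.mul_le_mul le_rfl (Nat.pow_le_pow_right (by norm_num) hk))

theorem KA_num3 (x y : ℕ) (hx : x ≤ 43 * (2 ^ 46 * 1080000000 ^ 42))
    (hy : y ≤ 1806 * (2 ^ 74 * 1080000000 ^ 41)) : x + y < 2 ^ 1344 := by
  have h2 := KA_num
  generalize (2 : ℕ) ^ 1344 = a at *
  generalize (1080000000 : ℕ) ^ 43 = b at *
  generalize (1806 * (2 ^ 74 * 1080000000 ^ 41) : ℕ) = c at *
  generalize (43 * (2 ^ 46 * 1080000000 ^ 42) : ℕ) = d at *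
  omega

attribute [local irreducible] pk pkS nrm

theorem KA_mul (X Y : ℕ) (f h : PowerSeries ℕ) (hX : X = pkS 1344 16384 f)
    (hY : Y = pkS 1344 16384 h) (hb : nrm 16384 f * nrm 16384 h < 2 ^ 1344) :
    md (Nat.mul X Y) = pkS 1344 16384 (f * h) := by
  delta md MASK
  exact KA_mul0 1344 16384 22020096 X Y f h (by norm_num) hX hY hb

theorem KA_pow (q : ℕ → ℕ) (hq : Wq q) (X Y a b : ℕ) (hX : X = pkS 1344 16384 (Ps q ^ a))
    (hY : Y = pkS 1344 16384 (Ps q ^ b)) (hab : a + b ≤ 43) :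
    md (Nat.mul X Y) = pkS 1344 16384 (Ps q ^ (a + b)) := by
  rw [pow_add]
  refine KA_mul X Y _ _ hX hY ?_
  refine (Nat.mul_le_mul (KA_nrm_pow q hq a) (KA_nrm_pow q hq b)).trans_lt ?_
  rw [← pow_add]
  exact KA_num0 (a + b) hab

attribute [local irreducible] P1 Q1 Q2 md MASK

theorem KA_P1 (q : ℕ → ℕ) : P1 q = pkS 1344 16384 (Ps q ^ 1) := by
  rw [pow_one]
  exact P1_eq q

theorem KA_P2 (q : ℕ → ℕ) (hq : Wq q) : P2 q = pkS 1344 16384 (Ps q ^ 2) := by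
  delta P2
  exact KA_pow q hq (P1 q) (P1 q) 1 1 (KA_P1 q) (KA_P1 q) (by norm_num)

attribute [local irreducible] P2

theorem KA_P4 (q : ℕ → ℕ) (hq : Wq q) : P4 q = pkS 1344 16384 (Ps q ^ 4) := by
  delta P4
  exact KA_pow q hq (P2 q) (P2 q) 2 2 (KA_P2 q hq) (KA_P2 q hq) (by norm_num)

attribute [local irreducible] P4

theorem KA_P5 (q : ℕ → ℕ) (hq : Wq q) : P5 q = pkS 1344 16384 (Ps q ^ 5) := by
  delta P5
  exact KA_pow q hq (P4 q) (P1 q) 4 1 (KA_P4 q hq) (KA_P1 q) (by norm_num)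

attribute [local irreducible] P5

theorem KA_P10 (q : ℕ → ℕ) (hq : Wq q) : P10 q = pkS 1344 16384 (Ps q ^ 10) := by
  delta P10
  exact KA_pow q hq (P5 q) (P5 q) 5 5 (KA_P5 q hq) (KA_P5 q hq) (by norm_num)

attribute [local irreducible] P10

theorem KA_P20 (q : ℕ → ℕ) (hq : Wq q) : P20 q = pkS 1344 16384 (Ps q ^ 20) := by
  delta P20
  exact KA_pow q hq (P10 q) (P10 q) 10 10 (KA_P10 q hq) (KA_P10 q hq) (by norm_num)

attribute [local irreducible] P20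

theorem KA_P40 (q : ℕ → ℕ) (hq : Wq q) : P40 q = pkS 1344 16384 (Ps q ^ 40) := by
  delta P40
  exact KA_pow q hq (P20 q) (P20 q) 20 20 (KA_P20 q hq) (KA_P20 q hq) (by norm_num)

attribute [local irreducible] P40

theorem KA_P41 (q : ℕ → ℕ) (hq : Wq q) : P41 q = pkS 1344 16384 (Ps q ^ 41) := by
  delta P41
  exact KA_pow q hq (P40 q) (P1 q) 40 1 (KA_P40 q hq) (KA_P1 q) (by norm_num)

attribute [local irreducible] P41

theorem KA_P42 (q : ℕ → ℕ) (hq : Wq q) : P42 q = pkS 1344 16384 (Ps q ^ 42) := by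
  delta P42
  exact KA_pow q hq (P41 q) (P1 q) 41 1 (KA_P41 q hq) (KA_P1 q) (by norm_num)

attribute [local irreducible] P42

theorem KA_P43 (q : ℕ → ℕ) (hq : Wq q) : P43 q = pkS 1344 16384 (Ps q ^ 43) := by
  delta P43
  exact KA_pow q hq (P42 q) (P1 q) 42 1 (KA_P42 q hq) (KA_P1 q) (by norm_num)

attribute [local irreducible] P43

theorem KA_nrm11 (q : ℕ → ℕ) (hq : Wq q) : nrm 16384 (Ps1 q * Ps1 q) ≤ 2 ^ 74 := by
  refine (nrm_mul 16384 (Ps1 q) (Ps1 q)).trans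
    ((Nat.mul_le_mul (KA_nrm1 q hq) (KA_nrm1 q hq)).trans ?_)
  norm_num

theorem KA_Q11 (q : ℕ → ℕ) (hq : Wq q) : Q11 q = pkS 1344 16384 (Ps1 q * Ps1 q) := by
  delta Q11
  refine KA_mul (Q1 q) (Q1 q) (Ps1 q) (Ps1 q) (Q1_eq q) (Q1_eq q) ?_
  refine (Nat.mul_le_mul (KA_nrm1 q hq) (KA_nrm1 q hq)).trans_lt ?_
  rw [← pow_add]
  exact Nat.pow_lt_pow_right (by norm_num) (by norm_num)

attribute [local irreducible] Q11

theorem KA_b1 (q : ℕ → ℕ) (hq : Wq q) (f : PowerSeries ℕ) (c m k : ℕ)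
    (hf : nrm 16384 f ≤ 2 ^ c) (hk : k ≤ 42) (hm : m ≤ 43) (hc : c ≤ 46) :
    m * nrm 16384 (f * Ps q ^ k) ≤ 43 * (2 ^ 46 * 1080000000 ^ 42) :=
  (Nat.mul_le_mul_left m ((nrm_mul _ _ _).trans
    (Nat.mul_le_mul hf (KA_nrm_pow q hq k)))).trans (KA_num1 k m c hk hm hc)

theorem KA_b2 (q : ℕ → ℕ) (hq : Wq q) (m k : ℕ) (hk : k ≤ 41) (hm : m ≤ 1806) :
    m * nrm 16384 (Ps1 q * Ps1 q * Ps q ^ k) ≤ 1806 * (2 ^ 74 * 1080000000 ^ 41) :=
  (Nat.mul_le_mul_left m ((nrm_mul _ _ _).trans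
    (Nat.mul_le_mul (KA_nrm11 q hq) (KA_nrm_pow q hq k)))).trans (KA_num2 k m hk hm)

theorem KA_b1' (q : ℕ → ℕ) (hq : Wq q) (f : PowerSeries ℕ) (c k : ℕ)
    (hf : nrm 16384 f ≤ 2 ^ c) (hk : k ≤ 42) (hc : c ≤ 46) :
    nrm 16384 f * nrm 16384 (Ps q ^ k) < 2 ^ 1344 := by
  have h1 : nrm 16384 f * nrm 16384 (Ps q ^ k) ≤ 1 * (2 ^ c * 1080000000 ^ k) := by
    rw [one_mul]
    exact Nat.mul_le_mul hf (KA_nrm_pow q hq k)
  have h2 := h1.trans (KA_num1 k 1 c hk (by norm_num) hc)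
  have h3 := KA_num3 _ 0 h2 (Nat.zero_le _)
  rwa [Nat.add_zero] at h3

theorem KA_b2' (q : ℕ → ℕ) (hq : Wq q) (k : ℕ) (hk : k ≤ 41) :
    nrm 16384 (Ps1 q * Ps1 q) * nrm 16384 (Ps q ^ k) < 2 ^ 1344 := by
  have h1 : nrm 16384 (Ps1 q * Ps1 q) * nrm 16384 (Ps q ^ k)
      ≤ 1 * (2 ^ 74 * 1080000000 ^ k) := by
    rw [one_mul]
    exact Nat.mul_le_mul (KA_nrm11 q hq) (KA_nrm_pow q hq k)
  have h2 := h1.trans (KA_num2 k 1 hk (by norm_num))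
  have h3 := KA_num3 0 _ (Nat.zero_le _) h2
  rwa [Nat.zero_add] at h3

/-- the first moment -/
theorem KA_G1 (q : ℕ → ℕ) (hq : Wq q) (m k X : ℕ) (hk : k = m - 1)
    (hX : X = pkS 1344 16384 (Ps q ^ k)) (hm : m ≤ 43) :
    Nat.mul m (md (Nat.mul (Q1 q) X)) = pkS 1344 16384 (G1 m (Ps q) (Ps1 q)) := by
  have h := KA_mul (Q1 q) X (Ps1 q) (Ps q ^ k) (Q1_eq q) hX
    (KA_b1' q hq (Ps1 q) 37 k (KA_nrm1 q hq) (by omega) (by norm_num))
  have h' := pkS_natCast_mul 1344 16384 m (Ps1 q * Ps q ^ k)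
  subst hk
  delta G1
  rw [h, h']
  exact rfl

/-- the second moment -/
theorem KA_G2 (q : ℕ → ℕ) (hq : Wq q) (m k l c X Y : ℕ) (hk : k = m - 1) (hl : l = m - 2)
    (hX : X = pkS 1344 16384 (Ps q ^ k)) (hY : Y = pkS 1344 16384 (Ps q ^ l)) (hm : m ≤ 43)
    (hc : c = m * (m - 1)) :
    Nat.add (Nat.mul m (md (Nat.mul (Q2 q) X))) (Nat.mul c (md (Nat.mul (Q11 q) Y))) =
      pkS 1344 16384 (G2 m (Ps q) (Ps1 q) (Ps2 q)) := by
  have h1 := KA_mul (Q2 q) X (Ps2 q) (Ps q ^ k) (Q2_eq q) hX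
    (KA_b1' q hq (Ps2 q) 46 k (KA_nrm2 q hq) (by omega) (by norm_num))
  have h2 := KA_mul (Q11 q) Y (Ps1 q * Ps1 q) (Ps q ^ l) (KA_Q11 q hq) hY
    (KA_b2' q hq l (by omega))
  have h3 := pkS_natCast_mul 1344 16384 m (Ps2 q * Ps q ^ k)
  have h4 := pkS_natCast_mul 1344 16384 (m * (m - 1)) (Ps1 q * Ps1 q * Ps q ^ l)
  subst hk hl hc
  delta G2
  rw [h1, h2, pkS_add, h3, h4]
  exact rfl

theorem KA_E1 (q : ℕ → ℕ) (hq : Wq q) : E1 q = pkS 1344 16384 (G1 42 (Ps q) (Ps1 q)) := by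
  delta E1
  exact KA_G1 q hq 42 41 (P41 q) (by norm_num) (KA_P41 q hq) (by norm_num)

theorem KA_E2 (q : ℕ → ℕ) (hq : Wq q) :
    E2 q = pkS 1344 16384 (G2 42 (Ps q) (Ps1 q) (Ps2 q)) := by
  delta E2
  exact KA_G2 q hq 42 41 40 1722 (P41 q) (P40 q) (by norm_num) (by norm_num) (KA_P41 q hq)
    (KA_P40 q hq) (by norm_num) (by norm_num)

theorem KA_F1 (q : ℕ → ℕ) (hq : Wq q) : F1 q = pkS 1344 16384 (G1 43 (Ps q) (Ps1 q)) := by
  delta F1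
  exact KA_G1 q hq 43 42 (P42 q) (by norm_num) (KA_P42 q hq) (by norm_num)

theorem KA_F2 (q : ℕ → ℕ) (hq : Wq q) :
    F2 q = pkS 1344 16384 (G2 43 (Ps q) (Ps1 q) (Ps2 q)) := by
  delta F2
  exact KA_G2 q hq 43 42 41 1806 (P42 q) (P41 q) (by norm_num) (by norm_num) (KA_P42 q hq)
    (KA_P41 q hq) (by norm_num) (by norm_num)

attribute [local irreducible] E1 E2 F1 F2

/-! ### Digits -/

theorem KA_digP (q : ℕ → ℕ) (hq : Wq q) (a i : ℕ) (ha : a ≤ 43) (hi : i < 16384) :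
    cf (Ps q ^ a) i < 2 ^ 1344 :=
  ((coeff_le_nrm 16384 i hi _).trans (KA_nrm_pow q hq a)).trans_lt (KA_num0 a ha)

theorem KA_digG1 (q : ℕ → ℕ) (hq : Wq q) (m i : ℕ) (hm : m ≤ 43) (hi : i < 16384) :
    cf (G1 m (Ps q) (Ps1 q)) i < 2 ^ 1344 := by
  have h1 : nrm 16384 (G1 m (Ps q) (Ps1 q)) ≤ 43 * (2 ^ 46 * 1080000000 ^ 42) := by
    delta G1
    rw [nrm_natCast_mul]
    exact KA_b1 q hq (Ps1 q) 37 m (m - 1) (KA_nrm1 q hq) (by omega) hm (by norm_num)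
  have h2 := KA_num3 _ 0 h1 (Nat.zero_le _)
  rw [Nat.add_zero] at h2
  exact (coeff_le_nrm 16384 i hi _).trans_lt h2

theorem KA_digG2 (q : ℕ → ℕ) (hq : Wq q) (m i : ℕ) (hm : m ≤ 43) (hi : i < 16384) :
    cf (G2 m (Ps q) (Ps1 q) (Ps2 q)) i < 2 ^ 1344 := by
  have h1 : nrm 16384 (G2 m (Ps q) (Ps1 q) (Ps2 q)) < 2 ^ 1344 := by
    delta G2
    rw [nrm_add, nrm_natCast_mul, nrm_natCast_mul]
    have hmm : m * (m - 1) ≤ 43 * 42 := Nat.mul_le_mul hm (by omega)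
    exact KA_num3 _ _ (KA_b1 q hq (Ps2 q) 46 m (m - 1) (KA_nrm2 q hq) (by omega) hm le_rfl)
      (KA_b2 q hq (m * (m - 1)) (m - 2) (by omega) hmm)
  exact (coeff_le_nrm 16384 i hi _).trans_lt h1

end Pool.Agent.K9h6.C.Ka
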