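import Mathlib
import Pool.Agent.H95R2.BG.CertMath
import Pool.Agent.H95R2.BG.K1
import Pool.Agent.H95R2.BG.K2
import Pool.Agent.K9h6.C.CM

/-! helper6, task KA (adapted from Pool.Agent.Y141.ZC): correlations. -/

set_option autoImplicit false

open Finset

namespace Pool.Agent.K9h6.C.Ka

open Pool.Agent.H95R2.BG.Cert (pk cf pkS nrm G1 G2 look dc dc_spec pk_zero_fun pk_base_zero
  corr_spec)

theorem KAb_g_le (i : ℕ) : g i ≤ 4096 := by
  unfold g
  rcases Nat.ble (Nat.add i 1) 10790 with _ | _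
  · exact Nat.zero_le _
  · show 283500 / (75 + i) ≤ 4096
    have h : 283500 / (75 + i) ≤ 283500 / 75 := Nat.div_le_div_left (by omega) (by omega)
    exact h.trans (by norm_num)

theorem KAb_ph_le (i : ℕ) : ph i ≤ i := by
  unfold ph
  show (2 * (i * i)) / (12000 + 8 * i) ≤ i
  apply Nat.div_le_of_le_mul
  nlinarith

theorem KAb_look_le (T i : ℕ) : look T 32 i ≤ 4294967295 := by
  unfold look
  have h1 : Nat.sub (Nat.shiftLeft 1 32) 1 = 4294967295 := rfl
  rw [h1]
  exact Nat.and_le_right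

theorem KAb_hh_le (T n : ℕ) : hh T n ≤ 1099511627776 := by
  unfold hh
  show (256 - n % 256) * look T 32 (n / 256) + n % 256 * look T 32 (n / 256 + 1) ≤ 1099511627776
  have h1 := KAb_look_le T (n / 256)
  have h2 := KAb_look_le T (n / 256 + 1)
  have h3 : n % 256 < 256 := Nat.mod_lt _ (by norm_num)
  have h4 : (256 - n % 256) * look T 32 (n / 256) ≤ (256 - n % 256) * 4294967295 :=
    Nat.mul_le_mul_left _ h1
  have h5 : n % 256 * look T 32 (n / 256 + 1) ≤ n % 256 * 4294967295 := Nat.mul_le_mul_left _ h2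
  omega

/-- generated arrays -/
theorem KAb_gen (Bo : ℕ) (f : ℕ → ℕ) : gen Bo f = pk Bo 16384 f := by
  have h := dc_spec Bo 1 1 (fun lo _ _ _ _ _ _ => f lo) 14 0 (fun _ => 0) (fun _ => 0)
    (fun _ => 0) (fun _ => 0) (fun _ => 0) (fun _ => 0) (fun _ _ => by norm_num)
    (fun _ _ => by norm_num) (fun _ _ => by norm_num) (fun _ _ => by norm_num)
    (fun _ _ => by norm_num) (fun _ _ => by norm_num)
  rw [pk_zero_fun] at h
  have h2 : (2 : ℕ) ^ 14 = 16384 := by norm_num
  rw [h2] at h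
  unfold gen
  rw [h]
  unfold pk
  refine Finset.sum_congr rfl fun i _ => ?_
  show f (0 + i) * _ = f i * _
  rw [Nat.zero_add]

theorem KAb_RG : RG = pk 128 16384 (fun i => g (16384 - 1 - i)) := by
  unfold RG
  rw [KAb_gen]
  rfl

theorem KAb_RGP : RGP = pk 128 16384 (fun i => (fun t => g t * ph t) (16384 - 1 - i)) := by
  unfold RGP
  rw [KAb_gen]
  rfl

theorem KAb_HH0 : HH0 = pk 128 16384 (hh T0) := by
  unfold HH0
  rw [KAb_gen]

theorem KAb_HH1 : HH1 = pk 128 16384 (hh T1) := by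
  unfold HH1
  rw [KAb_gen]

/-- the correlation with the two factors as variables -/
theorem KAb_corr (B n s X Y : ℕ) (hn : 0 < n) (w h : ℕ → ℕ) (Wm Hm : ℕ) (hs : s = B * (n - 1))
    (hX : X = pk B n (fun i => w (n - 1 - i))) (hY : Y = pk B n h) (hw : ∀ i < n, w i ≤ Wm)
    (hh : ∀ i < n, h i ≤ Hm) (hb : n * Wm * Hm < 2 ^ B) :
    Nat.shiftRight (Nat.mul X Y) s = pk B n (fun m => ∑ t ∈ range (n - m), w t * h (m + t)) := by
  subst hs hX hY
  exact corr_spec B n hn w h Wm Hm hw hh hb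

attribute [local irreducible] pk RG RGP HH0 HH1

theorem AP_eq : AP = pk 128 16384 ap := by
  delta AP
  exact KAb_corr 128 16384 2097024 RG HH0 (by norm_num) g (hh T0) 4096 1099511627776
    (by norm_num) KAb_RG KAb_HH0 (fun i _ => KAb_g_le i) (fun i _ => KAb_hh_le T0 i) (by norm_num)

theorem AM_eq : AM = pk 128 16384 am := by
  delta AM
  exact KAb_corr 128 16384 2097024 RGP HH1 (by norm_num) (fun t => g t * ph t) (hh T1)
    (4096 * 16384) 1099511627776 (by norm_num) KAb_RGP KAb_HH1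
    (fun i hi => Nat.mul_le_mul (KAb_g_le i) ((KAb_ph_le i).trans hi.le))
    (fun i _ => KAb_hh_le T1 i) (by norm_num)

theorem BB_eq : BB = pk 128 16384 bb := by
  delta BB
  exact KAb_corr 128 16384 2097024 RG HH1 (by norm_num) g (hh T1) 4096 1099511627776
    (by norm_num) KAb_RG KAb_HH1 (fun i _ => KAb_g_le i) (fun i _ => KAb_hh_le T1 i) (by norm_num)

theorem KAb_sum_lt (n : ℕ) (f : ℕ → ℕ) (M : ℕ) (h : ∀ t ∈ range (16384 - n), f t ≤ M)
    (hM : 16384 * M < 2 ^ 128) : ∑ t ∈ range (16384 - n), f t < 2 ^ 128 := by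
  have h1 := Finset.sum_le_card_nsmul (range (16384 - n)) f M h
  rw [card_range, smul_eq_mul] at h1
  have h2 : (16384 - n) * M ≤ 16384 * M := Nat.mul_le_mul_right M (Nat.sub_le _ _)
  exact (h1.trans h2).trans_lt hM

theorem digAP (i : ℕ) (_ : i < 16384) : ap i < 2 ^ 128 := by
  unfold ap
  exact KAb_sum_lt i _ (4096 * 1099511627776)
    (fun t _ => Nat.mul_le_mul (KAb_g_le t) (KAb_hh_le _ _)) (by norm_num)

theorem digAM (i : ℕ) (_ : i < 16384) : am i < 2 ^ 128 := by
  unfold am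
  refine KAb_sum_lt i _ (4096 * 16384 * 1099511627776) (fun t ht => ?_) (by norm_num)
  have h1 : t < 16384 := (mem_range.1 ht).trans_le (Nat.sub_le _ _)
  exact Nat.mul_le_mul (Nat.mul_le_mul (KAb_g_le t) ((KAb_ph_le t).trans h1.le)) (KAb_hh_le _ _)

theorem digBB (i : ℕ) (_ : i < 16384) : bb i < 2 ^ 128 := by
  unfold bb
  exact KAb_sum_lt i _ (4096 * 1099511627776)
    (fun t _ => Nat.mul_le_mul (KAb_g_le t) (KAb_hh_le _ _)) (by norm_num)

end Pool.Agent.K9h6.C.Ka
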