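import Mathlib
import Pool.Agent.K9h6.C.CM
import Pool.Agent.H95R2.BG.K3

/-! helper6, task KB (adapted from Pool.Agent.Y333.ZC): the box sums (job 1323 of helper826); adapted from
`Pool.Agent.H95R2.BG.K4` (helper93). -/

open Finset

namespace Pool.Agent.K9h6.C

open Pool.Agent.H95R2.BG Pool.Agent.Y826.Z
open Pool.Agent.H95R2.BG.Cert (cf G1 G2 box_sum0 box_sum1 box_sum2)

theorem kb_rad {K : ℕ} (c : Fin K → ℕ) : rad c = ∑ j, c j + K := by
  unfold rad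
  rw [sum_add_distrib]
  simp

theorem kb_supp (c : Fin 43 → ℕ) (h : FF c ≠ 0) : rad c ≤ 16425 + 1 := by
  unfold FF at h
  split_ifs at h with h1
  · rw [kb_rad]; omega
  · exact absurd rfl h

/-- the three box sums together, for a general weight -/
theorem kb_all (K : ℕ) (hK : 2 ≤ K) (q : ℕ → ℕ) (A0 A1 A2 : ℕ → ℝ) :
    ∑ c ∈ Box K 16384, (if ∑ j, c j < 16384 then
      (∏ j, (q (c j) : ℝ)) * (A0 (∑ j, c j) + A1 (∑ j, c j) * ∑ j, (ph (c j) : ℝ) +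
        A2 (∑ j, c j) * (∑ j, (ph (c j) : ℝ)) ^ 2) else 0) =
    ∑ n ∈ range 16384, (A0 n * (cf (Ps q ^ K) n : ℝ) + A1 n * (cf (G1 K (Ps q) (Ps1 q)) n : ℝ) +
      A2 n * (cf (G2 K (Ps q) (Ps1 q) (Ps2 q)) n : ℝ)) := by
  have e0 := box_sum0 K 16384 q A0
  have e1 := box_sum1 K 16384 (by omega) q ph A1
  have e2 := box_sum2 K 16384 hK q ph A2
  rw [sum_add_distrib, sum_add_distrib]
  have q0 : (PowerSeries.mk q) = Ps q := rfl
  have q1 : (PowerSeries.mk fun i => q i * ph i) = Ps1 q := rfl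
  have q2 : (PowerSeries.mk fun i => q i * (ph i * ph i)) = Ps2 q := rfl
  rw [q0] at e0
  rw [q0, q1] at e1
  rw [q0, q1, q2] at e2
  rw [← e0, ← e1, ← e2, ← sum_add_distrib, ← sum_add_distrib]
  refine sum_congr rfl fun c _ => ?_
  split_ifs
  · ring
  · simp

theorem prod_q0 {K : ℕ} (c : Fin K → ℕ) :
    ∏ j, (q0 (c j) : ℝ) = (∏ j, (g (c j) : ℝ)) ^ 2 := by
  rw [← prod_pow]
  refine prod_congr rfl fun j _ => ?_
  have h : q0 (c j) = g (c j) * g (c j) := rfl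
  rw [h]
  push_cast
  ring

theorem kb_sum_F2 : ∑ c ∈ Box 43 16384, FF c ^ 2 =
    ∑ n ∈ range 16384, ((hh T0 n : ℝ) ^ 2 * (cf (Ps q0 ^ 43) n : ℝ) +
      (hh T1 n : ℝ) ^ 2 * (cf (G2 43 (Ps q0) (Ps1 q0) (Ps2 q0)) n : ℝ) -
      2 * ((hh T0 n : ℝ) * hh T1 n) * (cf (G1 43 (Ps q0) (Ps1 q0)) n : ℝ)) := by
  have key := kb_all 43 (by norm_num) q0 (fun n => (hh T0 n : ℝ) ^ 2)
    (fun n => - 2 * ((hh T0 n : ℝ) * hh T1 n)) (fun n => (hh T1 n : ℝ) ^ 2)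
  have h1 : ∑ c ∈ Box 43 16384, FF c ^ 2 = ∑ c ∈ Box 43 16384, (if ∑ j, c j < 16384 then
      (∏ j, (q0 (c j) : ℝ)) * ((hh T0 (∑ j, c j) : ℝ) ^ 2 +
        (- 2 * ((hh T0 (∑ j, c j) : ℝ) * hh T1 (∑ j, c j))) * ∑ j, (ph (c j) : ℝ) +
        (hh T1 (∑ j, c j) : ℝ) ^ 2 * (∑ j, (ph (c j) : ℝ)) ^ 2) else 0) := by
    refine sum_congr rfl fun c _ => ?_
    unfold FF
    split_ifs
    · rw [prod_q0]
      ring
    · norm_num
  rw [h1]
  refine key.trans ?_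
  refine sum_congr rfl fun n _ => ?_
  ring

theorem kb_FF_insert (i : Fin 43) (t : ℕ) (c : Fin 42 → ℕ) :
    FF (Fin.insertNth (α := fun _ => ℕ) i t c) = if t + ∑ j, c j < 16384 then
      (g t : ℝ) * (∏ j, (g (c j) : ℝ)) * ((hh T0 (t + ∑ j, c j) : ℝ) -
        hh T1 (t + ∑ j, c j) * ((ph t : ℝ) + ∑ j, (ph (c j) : ℝ))) else 0 := by
  have h1 : ∑ j, (Fin.insertNth (α := fun _ => ℕ) i t c) j = t + ∑ j, c j := by
    rw [Fin.sum_univ_succAbove _ i]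
    simp
  have h2 : ∏ j, (g ((Fin.insertNth (α := fun _ => ℕ) i t c) j) : ℝ) =
      (g t : ℝ) * ∏ j, (g (c j) : ℝ) := by
    rw [Fin.prod_univ_succAbove _ i]
    simp
  have h3 : ∑ j, (ph ((Fin.insertNth (α := fun _ => ℕ) i t c) j) : ℝ) =
      (ph t : ℝ) + ∑ j, (ph (c j) : ℝ) := by
    rw [Fin.sum_univ_succAbove _ i]
    simp
  unfold FF
  rw [h1, h2, h3]

theorem kb_UU (i : Fin 43) (c : Fin 42 → ℕ) (hc : ∑ j, c j < 16384) : UU 16384 FF i c =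
    (∏ j, (g (c j) : ℝ)) * xi c := by
  unfold UU xi
  set n := ∑ j, c j with hn
  have h1 : ∀ t ∈ range 16384, FF (Fin.insertNth (α := fun _ => ℕ) i t c) =
      if t ∈ range (16384 - n) then
        (g t : ℝ) * (∏ j, (g (c j) : ℝ)) * ((hh T0 (n + t) : ℝ) -
        hh T1 (n + t) * ((ph t : ℝ) + ∑ j, (ph (c j) : ℝ))) else 0 := by
    intro t _
    rw [kb_FF_insert, ← hn, add_comm t n]
    by_cases h : n + t < 16384
    · rw [if_pos h, if_pos (by rw [mem_range]; omega)]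
    · rw [if_neg h, if_neg (by rw [mem_range]; omega)]
  rw [sum_congr rfl h1, ← sum_filter]
  have h2 : (range 16384).filter (fun t => t ∈ range (16384 - n)) = range (16384 - n) := by
    ext t; simp only [mem_filter, mem_range]; omega
  rw [h2]
  have e : ∀ t ∈ range (16384 - n), (g t : ℝ) * (∏ j, (g (c j) : ℝ)) * ((hh T0 (n + t) : ℝ) -
      hh T1 (n + t) * ((ph t : ℝ) + ∑ j, (ph (c j) : ℝ))) =
      (∏ j, (g (c j) : ℝ)) * ((g t : ℝ) * hh T0 (n + t) - (g t : ℝ) * ph t * hh T1 (n + t) -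
        (g t : ℝ) * hh T1 (n + t) * ∑ j, (ph (c j) : ℝ)) := fun t _ => by ring
  rw [sum_congr rfl e, ← mul_sum, sum_sub_distrib, sum_sub_distrib, ← sum_mul]
  unfold ap am bb
  push_cast
  rfl

theorem kb_UU_zero (i : Fin 43) (c : Fin 42 → ℕ) (hc : 16384 ≤ ∑ j, c j) : UU 16384 FF i c = 0 := by
  unfold UU
  refine sum_eq_zero fun t _ => ?_
  rw [kb_FF_insert, if_neg (by omega)]

theorem g_zero {n : ℕ} (h : 10790 ≤ n) : g n = 0 := by
  have h1 : Nat.ble (Nat.add n 1) 10790 = false := by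
    have h2 : ¬ (n + 1 ≤ 10790) := by omega
    have h3 : Nat.ble (n + 1) 10790 ≠ true := fun h4 => h2 (Nat.le_of_ble_eq_true h4)
    exact Bool.eq_false_iff.2 h3
  unfold g
  rw [h1]
  rfl

theorem mem_AA_iff (c : Fin 42 → ℕ) :
    c ∈ AA ↔ c ∈ Box 42 16384 ∧ ∑ j, c j < 16384 ∧ ∀ j, c j < 10790 := by
  unfold AA
  exact mem_filter

theorem kb_AA0 (i : Fin 43) (c : Fin 42 → ℕ) (hU : UU 16384 FF i c ≠ 0) :
    ∑ j, c j < 16384 ∧ ∀ j, c j < 10790 := by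
  have h1 : ∑ j, c j < 16384 := by
    by_contra h
    exact hU (kb_UU_zero i c (not_lt.1 h))
  constructor
  · exact h1
  · intro j
    by_contra h
    apply hU
    rw [kb_UU i c h1, prod_eq_zero (mem_univ j), zero_mul]
    rw [g_zero (not_lt.1 h), Nat.cast_zero]

theorem kb : S_KB := by
  refine And.intro kb_supp (And.intro kb_sum_F2 (And.intro ?_ (And.intro kb_UU ?_)))
  · intro i c
    have h1 := mem_AA_iff c
    have h2 := kb_AA0 i c
    generalize (c ∈ AA) = A' at *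
    generalize (c ∈ Box 42 16384) = A at *
    exact fun a u => h1.2 ⟨a, h2 u⟩
  intro q w
  have key := kb_all 42 (by norm_num) q (fun n => w n * ((ap n : ℝ) - am n) ^ 2)
    (fun n => w n * (- (2 * ((ap n : ℝ) - am n) * bb n))) (fun n => w n * (bb n : ℝ) ^ 2)
  have h1 : ∑ c ∈ Box 42 16384, (if ∑ j, c j < 16384 then
      w (∑ j, c j) * ((∏ j, (q (c j) : ℝ)) * xi c ^ 2) else 0) =
      ∑ c ∈ Box 42 16384, (if ∑ j, c j < 16384 then
      (∏ j, (q (c j) : ℝ)) *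
        (w (∑ j, c j) * ((ap (∑ j, c j) : ℝ) - am (∑ j, c j)) ^ 2 +
        (w (∑ j, c j) * (- (2 * ((ap (∑ j, c j) : ℝ) - am (∑ j, c j)) * bb (∑ j, c j)))) *
          ∑ j, (ph (c j) : ℝ) +
        (w (∑ j, c j) * (bb (∑ j, c j) : ℝ) ^ 2) * (∑ j, (ph (c j) : ℝ)) ^ 2) else 0) := by
    refine sum_congr rfl fun c _ => ?_
    unfold xi
    split_ifs with h
    · ring
    · rfl
  rw [h1]
  refine key.trans ?_
  refine sum_congr rfl fun n _ => ?_
  unfold XQ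
  ring

end Pool.Agent.K9h6.C
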