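import Pool.Agent.K9h6.C.CM

/-! Task KD of the project Y826/Z: the bad events and the exponential weights. -/

set_option autoImplicit false

open Finset

namespace Pool.Agent.K9h6.C.Kd

open Pool.Agent.H95R2.BG Pool.Agent.Y826.Z

lemma evt_of {c : Fin 42 → ℕ} {x f : ℝ} {X nf : ℕ} (h1 : (X : ℝ) ≤ x * 14987)
    (h2 : x * 14987 < X + 1) (h3 : f * 14987 < nf + 1) (h : ¬ f ≤ Sm 14987 x c) :
    Evt X nf c := by
  rw [not_le] at h
  have hN : (0 : ℝ) < 14987 := by norm_num
  have e1 : Sm 14987 x c * 14987 = ((∑ j, if c j < X then c j + 1 else 0 : ℕ) : ℝ) := by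
    unfold Sm
    rw [sum_mul]
    push_cast
    refine sum_congr rfl fun j _ => ?_
    by_cases hj : c j < X
    · have h4 : ((c j : ℝ) + 1) / 14987 ≤ x := by
        rw [div_le_iff₀ hN]
        have : (c j : ℝ) + 1 ≤ X := by exact_mod_cast hj
        linarith
      rw [if_pos h4, if_pos hj]
      field_simp
    · have h4 : ¬ ((c j : ℝ) + 1) / 14987 ≤ x := by
        rw [div_le_iff₀ hN, not_le]
        have : (X : ℝ) ≤ c j := by exact_mod_cast (not_lt.1 hj)
        linarith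
      rw [if_neg h4, if_neg hj]
      simp
  have e2 : Sm 14987 x c * 14987 < nf + 1 := by
    have := mul_lt_mul_of_pos_right h hN
    linarith
  rw [e1] at e2
  unfold Evt
  have e3 : (∑ j, if c j < X then c j + 1 else 0) < nf + 1 := by exact_mod_cast e2
  omega

set_option linter.constructorNameAsVariable false in
lemma part1 (c : Fin 42 → ℕ) (hc : c ∈ AA) (hG : ¬ Gd3 14987 c) :
    Evt 65 100 c ∨ Evt 131 323 c ∨ Evt 329 848 c ∨ Evt 749 1594 c ∨ Evt 1498 2158 c ∨ Evt 2248 2540 c ∨ Evt 3297 2775 c ∨ Evt 4496 3225 c ∨ Evt 5395 3749 c := by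
  unfold AA at hc
  rw [mem_filter] at hc
  obtain ⟨-, hs, hc2⟩ := hc
  by_contra hcon
  simp only [not_or] at hcon
  obtain ⟨k0, k1, k2, k3, k4, k5, k6, k7, k8⟩ := hcon
  apply hG
  refine ⟨?_, ?_, ?_, ?_, ?_, ?_, ?_, ?_, ?_, ?_, ?_⟩
  · intro j
    have h1 : c j + 1 ≤ 10790 := hc2 j
    have h2 : (c j : ℝ) + 1 ≤ 10790 := by exact_mod_cast h1
    rw [div_le_iff₀ (by norm_num)]
    push_cast
    linarith
  · have h1 : rad c ≤ 16425 := by
      unfold rad
      rw [sum_add_distrib]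
      simp only [sum_const, card_univ, Fintype.card_fin, smul_eq_mul, mul_one]
      omega
    have h2 : (rad c : ℝ) ≤ 16425 := by exact_mod_cast h1
    rw [div_le_iff₀ (by norm_num)]
    push_cast
    linarith
  · by_contra h
    exact k0 (evt_of (by norm_num) (by norm_num) (by norm_num) h)
  · by_contra h
    exact k1 (evt_of (by norm_num) (by norm_num) (by norm_num) h)
  · by_contra h
    exact k2 (evt_of (by norm_num) (by norm_num) (by norm_num) h)
  · by_contra h
    exact k3 (evt_of (by norm_num) (by norm_num) (by norm_num) h)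
  · by_contra h
    exact k4 (evt_of (by norm_num) (by norm_num) (by norm_num) h)
  · by_contra h
    exact k5 (evt_of (by norm_num) (by norm_num) (by norm_num) h)
  · by_contra h
    exact k6 (evt_of (by norm_num) (by norm_num) (by norm_num) h)
  · by_contra h
    exact k7 (evt_of (by norm_num) (by norm_num) (by norm_num) h)
  · by_contra h
    exact k8 (evt_of (by norm_num) (by norm_num) (by norm_num) h)

lemma vw_pos {a X c : ℕ} (h : c < X) :
    vw a X c = ((g c * g c * (((1048576 * a ^ (c + 1)) >>> (11 * (c + 1))) + 1)) >>> 20) + 1 := by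
  have hb : Nat.ble (Nat.add c 1) X = true := Nat.ble_eq_true_of_le h
  unfold vw
  rw [hb]
  rfl

lemma vw_neg {a X c : ℕ} (h : ¬ c < X) : vw a X c = g c * g c := by
  have hb : Nat.ble (Nat.add c 1) X = false := by
    rw [Bool.eq_false_iff]
    intro h1
    exact h (Nat.le_of_ble_eq_true h1)
  unfold vw
  rw [hb]
  rfl

lemma shift_ge (y k : ℕ) : (y : ℝ) / 2 ^ k ≤ ((y >>> k + 1 : ℕ) : ℝ) := by
  rw [Nat.shiftRight_eq_div_pow, div_le_iff₀ (by positivity)]
  have h1 : y < (y / 2 ^ k + 1) * 2 ^ k := by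
    have := Nat.lt_mul_div_succ y (Nat.two_pow_pos k)
    rw [mul_comm]
    exact this
  have h2 : (y : ℝ) < ((y / 2 ^ k + 1 : ℕ) : ℝ) * 2 ^ k := by exact_mod_cast h1
  exact h2.le

lemma vw_ge {a X c : ℕ} :
    ((g c * g c : ℕ) : ℝ) * ((a : ℝ) / 2048) ^ (if c < X then c + 1 else 0) ≤ (vw a X c : ℝ) := by
  by_cases h : c < X
  · rw [if_pos h, vw_pos h]
    refine le_trans ?_ (shift_ge _ 20)
    rw [le_div_iff₀ (by positivity)]
    have h1 := shift_ge (1048576 * a ^ (c + 1)) (11 * (c + 1))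
    have e1 : ((1048576 * a ^ (c + 1) : ℕ) : ℝ) / 2 ^ (11 * (c + 1)) =
        1048576 * ((a : ℝ) / 2048) ^ (c + 1) := by
      rw [pow_mul, div_pow]
      push_cast
      norm_num
      ring
    rw [e1] at h1
    have h2 : ((g c * g c * (((1048576 * a ^ (c + 1)) >>> (11 * (c + 1))) + 1) : ℕ) : ℝ) =
        ((g c * g c : ℕ) : ℝ) * (((1048576 * a ^ (c + 1)) >>> (11 * (c + 1)) + 1 : ℕ) : ℝ) := by
      push_cast
      ring
    rw [h2]
    have h3 := mul_le_mul_of_nonneg_left h1 (Nat.cast_nonneg (α := ℝ) (g c * g c))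
    have e2 : (2 : ℝ) ^ 20 = 1048576 := by norm_num
    rw [e2]
    linarith
  · rw [if_neg h, vw_neg h, pow_zero, mul_one]

lemma part2 (a X nf : ℕ) (ha : a < 2048) (c : Fin 42 → ℕ) (hE : Evt X nf c) :
    (∏ j, ((g (c j) * g (c j) : ℕ) : ℝ)) * ((a : ℝ) / 2048) ^ nf ≤ ∏ j, (vw a X (c j) : ℝ) := by
  have h0 : (0 : ℝ) ≤ (a : ℝ) / 2048 := by positivity
  have h1 : (a : ℝ) / 2048 ≤ 1 := by
    rw [div_le_one (by norm_num)]
    exact_mod_cast ha.le
  have h2 : ∏ j, (((g (c j) * g (c j) : ℕ) : ℝ) *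
      ((a : ℝ) / 2048) ^ (if c j < X then c j + 1 else 0)) ≤ ∏ j, (vw a X (c j) : ℝ) :=
    prod_le_prod (fun j _ => by positivity) (fun j _ => vw_ge)
  refine le_trans ?_ h2
  rw [prod_mul_distrib, prod_pow_eq_pow_sum]
  refine mul_le_mul_of_nonneg_left ?_ (prod_nonneg fun j _ => by positivity)
  exact pow_le_pow_of_le_one h0 h1 hE

lemma part3 (a X : ℕ) (ha : a < 2048) (i : ℕ) : vw a X i ≤ g i * g i + 1 := by
  by_cases h : i < X
  · rw [vw_pos h]
    apply Nat.succ_le_succ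
    have h1 : (1048576 * a ^ (i + 1)) >>> (11 * (i + 1)) < 1048576 := by
      rw [Nat.shiftRight_eq_div_pow, Nat.div_lt_iff_lt_mul (Nat.two_pow_pos _), pow_mul]
      refine Nat.mul_lt_mul_of_pos_left ?_ (by norm_num)
      exact Nat.pow_lt_pow_left ha (Nat.succ_ne_zero i)
    have h2 : (1048576 * a ^ (i + 1)) >>> (11 * (i + 1)) + 1 ≤ 1048576 := h1
    rw [Nat.shiftRight_eq_div_pow (g i * g i * _) 20]
    apply Nat.div_le_of_le_mul
    have e2 : 2 ^ 20 = 1048576 := by norm_num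
    rw [e2, mul_comm (1048576 : ℕ) (g i * g i)]
    exact Nat.mul_le_mul_left _ h2
  · rw [vw_neg h]
    exact Nat.le_succ _

theorem kd : S_KD :=
  ⟨part1, part2, part3⟩

end Pool.Agent.K9h6.C.Kd
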