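import Pool.Agent.K9h6.C.CD

/-! helper6: the kernel computation, event 5. -/

namespace Pool.Agent.K9h6.C

theorem chkE5 : Nat.ble (LL (vw 2036 2248) TD 0) (Nat.add (LL (vw 2036 2248) 0 TD) B5) = true := by decide +kernel

theorem chkC5 : Nat.ble (Nat.mul B5 (Nat.pow 2048 2540)) (Nat.mul C5 (Nat.pow 2036 2540)) = true := by decide +kernel

end Pool.Agent.K9h6.C
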