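import Mathlib
import Pool.Agent.K9h6.C.Dhl
import Pool.Agent.K9h6.C.KAm
import Pool.Agent.K9h6.C.KB
import Pool.Agent.K9h6.C.KC
import Pool.Agent.K9h6.C.KD
import Pool.Agent.K9h6.C.KE

/-! helper6: `DHL[43,2]` with a count and a residue class, unconditionally. -/

open Finset Filter

namespace Pool.Agent.K9h6.C

theorem s_ke : S_KE := ke Ka.ka kb Kc.kc Kd.kd

/-- `DHL[43,2]` -/
theorem dhl43 : DhlCount 43 := dhl43_of kb Kc.kc s_ke

end Pool.Agent.K9h6.C
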